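import Pool.Agent.R294.CB6

/-!
There is no smooth Besicovitch cylindrical transformation over a minimal rotation of a torus of any
dimension.
-/

open Set Topology Filter

namespace Pool.Agent.Results.MP_3d11e1_an.NoSmoothBesicovitch

/-- The `d`-dimensional torus. -/
abbrev Torus (d : ℕ) : Type := Fin d → UnitAddCircle

/-- The cylindrical transformation `(x, t) ↦ (x + a, t + f x)`, as a homeomorphism. -/
def cylinder {d : ℕ} (a : Torus d) (f : C(Torus d, ℝ)) : Torus d × ℝ ≃ₜ Torus d × ℝ where
  toFun p := (p.1 + a, p.2 + f p.1)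
  invFun p := (p.1 - a, p.2 - f (p.1 - a))
  left_inv p := by simp
  right_inv p := by simp
  continuous_toFun := by fun_prop
  continuous_invFun := by fun_prop

/-- The full orbit of a point under a homeomorphism. -/
def orbit {X : Type} [TopologicalSpace X] (T : X ≃ₜ X) (p : X) : Set X :=
  range fun n : ℤ => (T ^ n) p

/-- The rotation by `a` is minimal: every orbit is dense. -/
def IsMinimalRotation {d : ℕ} (a : Torus d) : Prop :=
  ∀ x : Torus d, Dense (range fun n : ℤ => x + n • a)

/-- The `ℤ^d`-periodic function on `ℝ^d` given by a function on the torus. -/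
def lift {d : ℕ} (f : C(Torus d, ℝ)) : (Fin d → ℝ) → ℝ := fun x => f fun i => (x i : UnitAddCircle)

/-- The orbit of `p` is discrete: it is closed and discrete, or (the second form of the problem
file) its second coordinate tends to infinity in absolute value as `|n| → ∞`. -/
def DiscreteOrbit {d : ℕ} (T : Torus d × ℝ ≃ₜ Torus d × ℝ) (p : Torus d × ℝ) : Prop :=
  (IsClosed (orbit T p) ∧ DiscreteTopology (orbit T p)) ∨
    Tendsto (fun n : ℤ => |((T ^ n) p).2|) cofinite atTop

/-- The cylindrical transformation has a dense orbit and a discrete orbit. -/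
def Besicovitch {d : ℕ} (a : Torus d) (f : C(Torus d, ℝ)) : Prop :=
  (∃ p, Dense (orbit (cylinder a f) p)) ∧ ∃ p, DiscreteOrbit (cylinder a f) p

open R294.CB in
lemma pow_apply {d : ℕ} (a : Torus d) (f : C(Torus d, ℝ)) (p : Torus d × ℝ) (n : ℕ) :
    ((cylinder a f) ^ n) p = (p.1 + n • a, p.2 + bk a f p.1 n) := by
  induction n with
  | zero => simp [bk]
  | succ n ih =>
    rw [pow_succ', Homeomorph.mul_apply, ih]
    show ((p.1 + n • a) + a, (p.2 + bk a f p.1 n) + f (p.1 + n • a)) = _
    rw [bk, bk, Finset.sum_range_succ, succ_nsmul, add_assoc, add_assoc]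

lemma zpow_neg_apply {d : ℕ} (a : Torus d) (f : C(Torus d, ℝ)) (p : Torus d × ℝ) (n : ℕ) :
    ((cylinder a f) ^ n) (((cylinder a f) ^ (-(n : ℤ))) p) = p := by
  rw [← Homeomorph.mul_apply, ← zpow_natCast, ← zpow_add, add_neg_cancel, zpow_zero]
  rfl

lemma fst_zpow {d : ℕ} (a : Torus d) (f : C(Torus d, ℝ)) (p : Torus d × ℝ) (n : ℤ) :
    (((cylinder a f) ^ n) p).1 = p.1 + n • a := by
  rcases Int.eq_nat_or_neg n with ⟨m, rfl | rfl⟩
  · rw [zpow_natCast, pow_apply, natCast_zsmul]
  · have h := zpow_neg_apply a f p m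
    rw [pow_apply] at h
    have h1 := congrArg Prod.fst h
    simp only at h1
    rw [neg_smul, natCast_zsmul, ← h1]
    simp

/-- A closed discrete orbit goes to infinity. -/
lemma tendsto_of_closed_discrete {d : ℕ} (a : Torus d) (f : C(Torus d, ℝ))
    (ha : ∀ n : ℤ, n • a = 0 → n = 0) (p : Torus d × ℝ)
    (hc : IsClosed (orbit (cylinder a f) p)) (hdis : DiscreteTopology (orbit (cylinder a f) p)) :
    Tendsto (fun n : ℤ => |(((cylinder a f) ^ n) p).2|) cofinite atTop := by
  have hinj : Function.Injective fun n : ℤ => ((cylinder a f) ^ n) p := by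
    intro n m hnm
    have h1 := congrArg Prod.fst hnm
    simp only [fst_zpow] at h1
    have h2 : (n - m) • a = 0 := by
      rw [sub_smul, sub_eq_zero]
      exact add_left_cancel h1
    have := ha _ h2
    omega
  rw [tendsto_atTop]
  intro R
  rw [eventually_cofinite]
  have hcomp : IsCompact (orbit (cylinder a f) p ∩ (univ ×ˢ Icc (-R) R)) :=
    (isCompact_univ.prod isCompact_Icc).inter_left hc
  have hfin : (orbit (cylinder a f) p ∩ (univ ×ˢ Icc (-R) R)).Finite := by
    apply hcomp.finite
    rw [isDiscrete_iff_discreteTopology]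
    exact DiscreteTopology.of_subset hdis inter_subset_left
  refine (hfin.preimage hinj.injOn).subset ?_
  intro n hn
  refine ⟨⟨n, rfl⟩, mem_univ _, ?_⟩
  have h3 : |(((cylinder a f) ^ n) p).2| < R := not_le.mp hn
  exact ⟨(abs_lt.mp h3).1.le, (abs_lt.mp h3).2.le⟩

open R294.CB in
/-- The dichotomy. -/
theorem dichotomy {d : ℕ} (hd : 1 ≤ d) (a : Torus d) (f : C(Torus d, ℝ))
    (ha : IsMinimalRotation a) (hF : ContDiff ℝ ((rate d + 2 * d : ℕ) : ℕ) (lift f)) :
    (∀ p, ¬ Tendsto (fun n : ℕ => |(((cylinder a f) ^ n) p).2|) atTop atTop) ∨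
      ∀ p, ¬ Dense (orbit (cylinder a f) p) := by
  obtain ⟨α, rfl⟩ := prj_surj d a
  have hα : ∀ k : Fin d → ℤ, k ≠ 0 → ∀ m : ℤ, ip α k ≠ m := by
    apply indep_of_minimal
    have := ha 0
    simpa only [zero_add] using this
  have hF' : ContDiff ℝ (rate d + 2 * d : ℕ) (fun x => f (prj d x)) := hF
  by_cases h0 : cf f 0 = 0
  · left
    intro p hT
    apply zero_mean hd α hα f f.continuous hF' h0 p.1
    have h1 : ∀ n : ℕ, |(((cylinder (prj d α) f) ^ n) p).2| - |p.2| ≤ |bk (prj d α) f p.1 n| := by
      intro n
      rw [pow_apply]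
      have := abs_add_le p.2 (bk (prj d α) f p.1 n)
      simp only
      linarith
    exact tendsto_atTop_mono h1 (tendsto_atTop_add_const_right _ _ hT)
  · right
    intro p hp
    obtain ⟨ε, D, hε, hgrow⟩ := nonzero_mean hd α hα f f.continuous hF' h0
    have hbound : ∀ n : ℕ, ∀ q : Torus d × ℝ,
        ε * n - D - |q.2| ≤ |(((cylinder (prj d α) f) ^ n) q).2| := by
      intro n q
      rw [pow_apply]
      have h1 := hgrow q.1 n
      have h2 := abs_add_le (q.2 + bk (prj d α) f q.1 n) (-q.2)
      rw [abs_neg] at h2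
      have h3 : q.2 + bk (prj d α) f q.1 n + -q.2 = bk (prj d α) f q.1 n := by ring
      rw [h3] at h2
      simp only
      linarith
    -- only finitely many orbit points have small second coordinate
    obtain ⟨N, hN⟩ := exists_nat_gt ((D + |p.2| + 1) / ε)
    have hN' : D + |p.2| + 1 < ε * N := by
      rw [div_lt_iff₀ hε] at hN
      linarith
    have hfin : (orbit (cylinder (prj d α) f) p ∩ {q | |q.2| < 1}).Finite := by
      refine ((finite_Icc (-(N : ℤ)) N).image fun n => ((cylinder (prj d α) f) ^ n) p).subset ?_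
      rintro _ ⟨⟨n, rfl⟩, hn⟩
      refine ⟨n, ?_, rfl⟩
      have hn' : |(((cylinder (prj d α) f) ^ n) p).2| < 1 := hn
      by_contra hcon
      rcases Int.eq_nat_or_neg n with ⟨m, rfl | rfl⟩
      · have hm : N < m := by
          by_contra h
          apply hcon
          rw [mem_Icc]
          omega
        have h1 := hbound m p
        rw [zpow_natCast] at hn'
        have h2 : ε * N < ε * m := by
          apply mul_lt_mul_of_pos_left _ hε
          exact_mod_cast hm
        linarith
      · have hm : N < m := by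
          by_contra h
          apply hcon
          rw [mem_Icc]
          omega
        have h1 := hbound m (((cylinder (prj d α) f) ^ (-(m : ℤ))) p)
        have h3 := zpow_neg_apply (prj d α) f p m
        rw [h3] at h1
        have h2 : ε * N < ε * m := by
          apply mul_lt_mul_of_pos_left _ hε
          exact_mod_cast hm
        linarith
    have hopen : IsOpen {q : Torus d × ℝ | |q.2| < 1} :=
      isOpen_lt (continuous_abs.comp continuous_snd) continuous_const
    have hsub : {q : Torus d × ℝ | |q.2| < 1} ⊆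
        closure (orbit (cylinder (prj d α) f) p ∩ {q | |q.2| < 1}) := by
      have := hp.open_subset_closure_inter hopen
      rwa [inter_comm] at this
    rw [hfin.isClosed.closure_eq] at hsub
    have hfin2 : ({q : Torus d × ℝ | |q.2| < 1}).Finite := hfin.subset hsub
    have hinf : (Ioo (0 : ℝ) 1).Infinite := Ioo_infinite one_pos
    apply hinf
    refine (hfin2.preimage (f := fun s : ℝ => ((0 : Torus d), s)) ?_).subset ?_
    · intro s _ s' _ h
      exact congrArg Prod.snd h
    · intro s hs
      show |s| < 1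
      rw [abs_of_pos hs.1]
      exact hs.2

open R294.CB in
/-- Smooth cylindrical transformations over minimal rotations are not Besicovitch. -/
theorem not_besicovitch {d : ℕ} (hd : 1 ≤ d) (a : Torus d) (f : C(Torus d, ℝ))
    (ha : IsMinimalRotation a) (hF : ContDiff ℝ ((rate d + 2 * d : ℕ) : ℕ) (lift f)) :
    ¬ Besicovitch a f := by
  rintro ⟨⟨p, hp⟩, q, hq⟩
  have hq' : Tendsto (fun n : ℤ => |(((cylinder a f) ^ n) q).2|) cofinite atTop := by
    rcases hq with ⟨h1, h2⟩ | h
    · apply tendsto_of_closed_discrete a f _ q h1 h2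
      obtain ⟨α, rfl⟩ := prj_surj d a
      have hα : ∀ k : Fin d → ℤ, k ≠ 0 → ∀ m : ℤ, ip α k ≠ m := by
        apply indep_of_minimal
        have := ha 0
        simpa only [zero_add] using this
      intro n hn
      by_contra hne
      have h3 : ((n : ℝ) * α ⟨0, hd⟩ : ℝ) = (0 : UnitAddCircle) := by
        have h4 := congrFun hn ⟨0, hd⟩
        rw [Pi.smul_apply, Pi.zero_apply] at h4
        rw [← zsmul_eq_mul, AddCircle.coe_zsmul]
        exact h4
      rw [AddCircle.coe_eq_zero_iff] at h3
      obtain ⟨m, hm⟩ := h3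
      rw [zsmul_eq_mul, mul_one] at hm
      refine hα (Pi.single ⟨0, hd⟩ n) ?_ m ?_
      · intro h5
        have h6 := congrFun h5 ⟨0, hd⟩
        rw [Pi.single_eq_same] at h6
        exact hne h6
      · rw [ip, Finset.sum_eq_single ⟨0, hd⟩]
        · rw [Pi.single_eq_same, hm]
        · intro j _ hj
          rw [Pi.single_eq_of_ne hj]
          simp
        · intro h; exact absurd (Finset.mem_univ _) h
    · exact h
  rcases dichotomy hd a f ha hF with h | h
  · apply h q
    have h1 : Tendsto (fun n : ℕ => (n : ℤ)) atTop cofinite := by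
      rw [← Nat.cofinite_eq_atTop]
      exact Nat.cast_injective.tendsto_cofinite
    have h2 := hq'.comp h1
    simpa only [Function.comp_def, zpow_natCast] using h2
  · exact h p hp

/-- For every `d ≥ 1` there is a finite `r` such that for every minimal rotation of the
`d`-dimensional torus and every function of class `C^r` either no orbit of the cylindrical
transformation has a second coordinate that tends to infinity in absolute value, even only as
`n → +∞`, or no orbit is dense; so the cylindrical transformation is not Besicovitch. In particular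
this holds for smooth and for real-analytic functions. -/
theorem result :
    (∀ d : ℕ, 1 ≤ d → ∃ r : ℕ, ∀ (a : Torus d) (f : C(Torus d, ℝ)), IsMinimalRotation a →
      ContDiff ℝ r (lift f) →
        ((∀ p, ¬ Tendsto (fun n : ℕ => |(((cylinder a f) ^ n) p).2|) atTop atTop) ∨
          ∀ p, ¬ Dense (orbit (cylinder a f) p)) ∧ ¬ Besicovitch a f) ∧
    (∀ d : ℕ, 1 ≤ d → ∀ (a : Torus d) (f : C(Torus d, ℝ)), IsMinimalRotation a →
      ContDiff ℝ (⊤ : ℕ∞) (lift f) → ¬ Besicovitch a f) ∧
    (∀ d : ℕ, 1 ≤ d → ∀ (a : Torus d) (f : C(Torus d, ℝ)), IsMinimalRotation a →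
      AnalyticOnNhd ℝ (lift f) univ → ¬ Besicovitch a f) := by
  refine ⟨fun d hd => ⟨R294.CB.rate d + 2 * d, fun a f ha hF =>
    ⟨dichotomy hd a f ha hF, not_besicovitch hd a f ha hF⟩⟩, ?_, ?_⟩
  · intro d hd a f ha hF
    exact not_besicovitch hd a f ha (contDiff_infty.mp hF _)
  · intro d hd a f ha hF
    exact not_besicovitch hd a f ha hF.contDiff

end Pool.Agent.Results.MP_3d11e1_an.NoSmoothBesicovitch
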